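import Pool.Agent.Lib.H20WE.F1
import Pool.Agent.Lib.H20WD.F4

/-!
# MP_e806f7_co: the maximum number of colourings for all `m ≥ C(n, 2) - n + 1` and all `q`

For all `n`, all `k < n` and all `q` the largest number of proper `q`-colourings of a graph with `n`
vertices and `C(n, 2) - k` edges is `F n q (A n k)`, or the maximum of `F n q (A n k)` and
`F n q (B n k)` if `n + 8 ≤ 2 k` and `2 k - n ≡ 2` modulo three. For `q ≥ n - 1` all extremal graphs
are described by the components of the complement.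
-/

namespace Pool.Agent.Results.MP_e806f7_co.DenseRange

open SimpleGraph Polynomial Finset

/-- The numbers of proper `q`-colourings of the graphs with `n` vertices and `m` edges; the largest
one is `f(n, m, q)`. -/
def values (n m q : ℕ) : Set ℕ :=
  {P | ∃ G : SimpleGraph (Fin n), G.edgeSet.ncard = m ∧ Nat.card (G.Coloring (Fin q)) = P}

/-- `∑ j ≤ n, p_j q (q - 1) ⋯ (q - n + j + 1)`, where `p_j` is the coefficient of `X ^ j` in `p`. -/
def F (n q : ℕ) (p : ℕ[X]) : ℕ := ∑ j ∈ range (n + 1), p.coeff j * q.descFactorial (n - j)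

/-- `(1 + X) ^ k` if `2 k ≤ n`; otherwise `(1 + X) ^ (n - 1 - k) (1 + 3 X + X ^ 2) ^ t (1 + i X)`, where
`2 k + 1 - n = 3 t + i`, `i ∈ {0, 1, 2}`. -/
noncomputable def A (n k : ℕ) : ℕ[X] :=
  if 2 * k ≤ n then (1 + X) ^ k
  else (1 + X) ^ (n - 1 - k) * (1 + 3 * X + X ^ 2) ^ ((2 * k + 1 - n) / 3) *
    (1 + (((2 * k + 1 - n) % 3 : ℕ) : ℕ[X]) * X)

/-- `(1 + 6 X + 7 X ^ 2 + X ^ 3) (1 + X) ^ (n + 2 - k) (1 + 3 X + X ^ 2) ^ ((2 k - 8 - n) / 3)`. -/
noncomputable def B (n k : ℕ) : ℕ[X] :=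
  (1 + 6 * X + 7 * X ^ 2 + X ^ 3) * (1 + X) ^ (n + 2 - k) *
    (1 + 3 * X + X ^ 2) ^ ((2 * k - 8 - n) / 3)

/-- `C` is a union of components of `H`, and `H` restricted to `C` is a copy of `K`. -/
def IsComp {n j : ℕ} (H : SimpleGraph (Fin n)) (K : SimpleGraph (Fin j)) (C : Set (Fin n)) : Prop :=
  ∃ f : K ↪g H, Set.range f = C ∧ ∀ x y, H.Adj (f x) y → y ∈ C

/-- The complement `H` of an extremal graph, `k` the number of its edges. If `2 k ≤ n` it is a
matching. If `2 k > n` all components are `K_2` or `K_3`, with the possible exception of one, which is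
a path with one, three or four vertices. -/
def Ext (n k : ℕ) (H : SimpleGraph (Fin n)) : Prop :=
  (2 * k ≤ n ∧ ∀ v a b, H.Adj v a → H.Adj v b → a = b) ∨
  (n < 2 * k ∧ ∃ Z : Set (Fin n),
    (Z = ∅ ∨ IsComp H (pathGraph 1) Z ∨ IsComp H (pathGraph 3) Z ∨ IsComp H (pathGraph 4) Z) ∧
    ∀ v ∉ Z, ∃ C, v ∈ C ∧
      (IsComp H (⊤ : SimpleGraph (Fin 2)) C ∨ IsComp H (⊤ : SimpleGraph (Fin 3)) C))

theorem A_eq {n k : ℕ} (hk : k < n) : A n k = Pool.Agent.Lib.H20WD.PP n k := by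
  unfold A
  split_ifs with h
  · rcases h.eq_or_lt with h | h
    · rw [Pool.Agent.Lib.H20WE.PP_cl (j := 1) (by omega) hk, Pool.Agent.Lib.H20WD.gg_one,
        ← Pool.Agent.Lib.H20WD.bb, ← pow_succ, show n - 1 - k + 1 = k by omega]
    · rw [Pool.Agent.Lib.H20WD.PP_small (by omega), ← Pool.Agent.Lib.H20WD.bb]
  · obtain ⟨j, hj⟩ : ∃ j, 2 * k + 1 = n + j := ⟨2 * k + 1 - n, by omega⟩
    rw [Pool.Agent.Lib.H20WE.PP_cl hj hk, show 2 * k + 1 - n = j by omega,
      ← Pool.Agent.Lib.H20WD.bb, ← Pool.Agent.Lib.H20WD.aa, mul_assoc]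
    congr 1
    have h3 : j % 3 < 3 := Nat.mod_lt _ (by norm_num)
    have hd := Nat.div_add_mod j 3
    obtain ⟨r, hr⟩ : ∃ r, j % 3 = r := ⟨_, rfl⟩
    rw [hr] at h3 hd ⊢
    conv_rhs => rw [← hd]
    interval_cases r
    · rw [add_zero, Pool.Agent.Lib.H20WE.gg_c0]
      simp
    · rw [Pool.Agent.Lib.H20WE.gg_c1, Pool.Agent.Lib.H20WD.bb]
      simp
    · rw [Pool.Agent.Lib.H20WE.gg_c2]
      simp

theorem B_eq {n k : ℕ} (hk : k < n) (h : n + 8 ≤ 2 * k) (h3 : (2 * k + 1 - n) % 3 = 0) :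
    B n k = Pool.Agent.Lib.H20WE.kk * Pool.Agent.Lib.H20WD.PP (n - 4) (k - 6) := by
  obtain ⟨s, hs⟩ : ∃ s, 2 * k = n + 8 + 3 * s := ⟨(2 * k - 8 - n) / 3, by omega⟩
  unfold B
  rw [Pool.Agent.Lib.H20WE.PP_cl (j := 3 * s + 1) (by omega) (by omega),
    Pool.Agent.Lib.H20WE.gg_c1, show (2 * k - 8 - n) / 3 = s by omega,
    show n + 2 - k = n - 4 - 1 - (k - 6) + 1 by omega, ← Pool.Agent.Lib.H20WD.bb,
    ← Pool.Agent.Lib.H20WD.aa, ← Pool.Agent.Lib.H20WE.kk]
  ring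

/-- The maximum for all `q`, and the extremal graphs for `q ≥ n - 1`. -/
theorem result (n k q : ℕ) (hk : k < n) :
    IsGreatest (values n (n.choose 2 - k) q)
      (if n + 8 ≤ 2 * k ∧ (2 * k - n) % 3 = 2 then max (F n q (A n k)) (F n q (B n k))
        else F n q (A n k)) ∧
    (n - 1 ≤ q → ∀ G : SimpleGraph (Fin n), G.edgeSet.ncard = n.choose 2 - k →
      (IsGreatest (values n (n.choose 2 - k) q) (Nat.card (G.Coloring (Fin q))) ↔
        Ext n k Gᶜ)) := by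
  constructor
  · have h1 := Pool.Agent.Lib.H20WE.main_all hk q
    rw [A_eq hk]
    by_cases h : n + 8 ≤ 2 * k ∧ (2 * k - n) % 3 = 2
    · have h' : n + 8 ≤ 2 * k ∧ (2 * k + 1 - n) % 3 = 0 := by omega
      rw [if_pos h'] at h1
      rw [if_pos h, B_eq hk h'.1 h'.2]
      exact h1
    · have h' : ¬ (n + 8 ≤ 2 * k ∧ (2 * k + 1 - n) % 3 = 0) := by omega
      rw [if_neg h'] at h1
      rw [if_neg h]
      exact h1
  · intro hq G hG
    have h1 := Pool.Agent.Lib.H20WD.main hk (q := q) (by omega)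
    have h2 := Pool.Agent.Lib.H20WD.main_ext hk (q := q) (by omega) G hG
    have h3 := Pool.Agent.Lib.H20WD.card_edges G
    have h4 := Pool.Agent.Lib.H20WD.le_choose_two hk
    have h5 : Pool.Agent.Lib.H20WD.ec Gᶜ univ = k := by omega
    have h6 : #(univ : Finset (Fin n)) = n := by rw [card_univ, Fintype.card_fin]
    have h7 : IsGreatest (values n (n.choose 2 - k) q) (Nat.card (G.Coloring (Fin q))) ↔
        Nat.card (G.Coloring (Fin q)) =
          Pool.Agent.Lib.H20WD.lam n q (Pool.Agent.Lib.H20WD.PP n k) :=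
      ⟨fun h => h.unique h1, fun h => by rw [h]; exact h1⟩
    rw [h7, h2]
    unfold Pool.Agent.Lib.H20WD.Ext Ext
    rw [h5, h6, Pool.Agent.Lib.H20WD.small_iff, Pool.Agent.Lib.H20WD.matching_iff]
    exact Iff.rfl

end Pool.Agent.Results.MP_e806f7_co.DenseRange
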