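import Pool.Agent.Lib.H30T.Main

/-!
# MP_e806f7_co: the maximum number of proper `q`-colourings for all `m > e(T_{q-1}(n))`

For every `q ≥ 2`, every `n` and every number `m` of edges for which `q` colours are needed
(`e(T_{q-1}(n)) < m ≤ e(T_q(n))`, `T_r(n)` the Turan graph) the largest number of proper
`q`-colourings of a graph with `n` vertices and `m` edges is `q! 2^k`, where `k` is the greatest
number `j` with `(q-1) j ≤ n` and `m ≤ M q n j`.
-/

namespace Pool.Agent.Results.MP_e806f7_co.TopRange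

open SimpleGraph

/-- The number `e(T_q(n - (q-1) j)) + (q-2) j (n - (q-1) j) + C(q-1, 2) j^2`. -/
noncomputable def M (q n j : ℕ) : ℕ :=
  (turanGraph (n - (q - 1) * j) q).edgeSet.ncard + (q - 2) * j * (n - (q - 1) * j) +
    (q - 1).choose 2 * j ^ 2

/-- The numbers of proper `q`-colourings of the graphs with `n` vertices and `m` edges; the largest
one is `f(n, m, q)`. -/
def values (n m q : ℕ) : Set ℕ :=
  {P | ∃ G : SimpleGraph (Fin n), G.edgeSet.ncard = m ∧ Nat.card (G.Coloring (Fin q)) = P}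

theorem M_eq {q : ℕ} (hq : 2 ≤ q) {n j : ℕ} (h : (q - 1) * j ≤ n) : M q n j = H30T.H q j n := by
  obtain ⟨l, rfl⟩ := Nat.exists_eq_add_of_le h
  rw [H30T.H_closed hq]
  unfold M
  rw [Nat.add_sub_cancel_left, H30T.turan_ncard (by omega)]

/-- The maximum number of proper `q`-colourings for `e(T_{q-1}(n)) < m ≤ e(T_q(n))`, and the closed
form for three colours. -/
theorem result :
    (∀ n q m : ℕ, 2 ≤ q → (turanGraph n (q - 1)).edgeSet.ncard < m →
      m ≤ (turanGraph n q).edgeSet.ncard →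
      ∃ k, IsGreatest {j | (q - 1) * j ≤ n ∧ m ≤ M q n j} k ∧
        IsGreatest (values n m q) (q.factorial * 2 ^ k)) ∧
    (∀ n m : ℕ, n ^ 2 < 4 * m → 3 * m ≤ n ^ 2 →
      IsGreatest (values n m 3) (6 * 2 ^ ⌊((n : ℝ) - √(12 * m - 3 * n ^ 2)) / 2⌋₊)) := by
  constructor
  · intro n q m hq hm hm'
    rw [H30T.turan_ncard (by omega)] at hm hm'
    obtain ⟨k, hk, hP⟩ := H30T.main hq hm hm'
    refine ⟨k, ?_, hP⟩
    have h : {j | (q - 1) * j ≤ n ∧ m ≤ M q n j} = {j | (q - 1) * j ≤ n ∧ m ≤ H30T.H q j n} := by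
      ext j
      constructor
      · rintro ⟨h1, h2⟩
        exact ⟨h1, by rwa [M_eq hq h1] at h2⟩
      · rintro ⟨h1, h2⟩
        exact ⟨h1, by rwa [M_eq hq h1]⟩
    rw [h]
    exact hk
  · intro n m h1 h2
    have h3 := H30T.tn_two_le n
    obtain ⟨b, h4, h5⟩ := H30T.tn_three n
    obtain ⟨k, hk, hP⟩ := H30T.main (n := n) (q := 3) (m := m) (by norm_num)
      (show H30T.tn 2 n < m by omega) (by omega)
    have h6 : k = ⌊((n : ℝ) - √(12 * m - 3 * n ^ 2)) / 2⌋₊ :=
      le_antisymm ((H30T.three_set h1 h2 k).mp hk.1) (hk.2 ((H30T.three_set h1 h2 _).mpr le_rfl))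
    rw [h6] at hP
    exact hP

end Pool.Agent.Results.MP_e806f7_co.TopRange
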