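import Pool.Agent.Lib.H30T.Main
import Pool.Agent.Lib.H30T.Unique3

/-!
# MP_e806f7_co: the unique extremal graphs at the corners of the top range

For `n = q s + (q-1) k` vertices and `m = C(q,2) s^2 + q (q-2) s k + C(q-1,2) k^2` edges the largest
number of proper `q`-colourings is `q! 2^k`, and `E q s k` is the only extremal graph.
-/

namespace Pool.Agent.Results.MP_e806f7_co.TopRangeUnique

open SimpleGraph Finset

/-- The classes to which a vertex may belong: there are `q` classes, `s` vertices belong only to the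
class `i` for every `i`, `k` further vertices belong only to the class `j + 2` for every `j < q - 2`,
and `k` vertices may belong to the class `0` or to the class `1`. -/
def spots (q s k : ℕ) : (Fin q × Fin s) ⊕ ((Fin (q - 2) × Fin k) ⊕ Fin k) → Finset (Fin q)
  | .inl a => {a.1}
  | .inr (.inl b) => {c | (c : ℕ) = b.1 + 2}
  | .inr (.inr _) => {c | (c : ℕ) < 2}

/-- Two vertices are adjacent iff they have no possible class in common: the complete `q`-partite
graph with two parts of size `s` and `q - 2` parts of size `s + k`, and `k` further independent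
vertices joined to all vertices of the parts of size `s + k`. -/
def E (q s k : ℕ) : SimpleGraph ((Fin q × Fin s) ⊕ ((Fin (q - 2) × Fin k) ⊕ Fin k)) where
  Adj x y := x ≠ y ∧ Disjoint (spots q s k x) (spots q s k y)
  symm := ⟨fun _ _ h => ⟨h.1.symm, h.2.symm⟩⟩
  loopless := ⟨fun _ h => h.1 rfl⟩

theorem spots_card (p s k : ℕ) (u : (Fin (p + 2) × Fin s) ⊕ ((Fin (p + 2 - 2) × Fin k) ⊕ Fin k)) :
    #(spots (p + 2) s k u) = 1 ∨ spots (p + 2) s k u = H30T.low p := by
  rcases u with a | b | c
  · left
    exact card_singleton _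
  · left
    have h : spots (p + 2) s k (.inr (.inl b)) = {⟨b.1 + 2, by omega⟩} := by
      ext c
      unfold spots
      simp only [mem_filter, mem_univ, true_and, mem_singleton, Fin.ext_iff]
    rw [h]
    exact card_singleton _
  · right
    rfl

theorem E_types (p s k : ℕ) : H30T.Types p s k (E (p + 2) s k) (spots (p + 2) s k) := by
  refine ⟨?_, spots_card p s k, ?_, ?_⟩
  · intro u u'
    refine ⟨fun h => h.2, fun h => ⟨?_, h⟩⟩
    rintro rfl
    rw [Finset.disjoint_self_iff_empty] at h
    rcases spots_card p s k u with h1 | h1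
    · rw [h] at h1
      simp at h1
    · rw [h] at h1
      have h2 := H30T.low_card' p
      rw [← h1] at h2
      simp at h2
  · intro c
    rw [card_filter, Fintype.sum_sum_type, Fintype.sum_sum_type, Fintype.sum_prod_type, Fintype.sum_prod_type]
    have h1 : (∑ x : Fin (p + 2), ∑ y : Fin s, if c ∈ spots (p + 2) s k (.inl (x, y)) then 1 else 0) = s := by
      have h2 : ∀ x : Fin (p + 2), (∑ y : Fin s, if c ∈ spots (p + 2) s k (.inl (x, y)) then 1 else 0) =
          if c = x then s else 0 := by
        intro x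
        by_cases h : c = x <;> simp [spots, h]
      rw [sum_congr rfl fun x _ => h2 x, sum_ite_eq univ]
      simp
    have h3 : (∑ x : Fin (p + 2 - 2), ∑ y : Fin k, if c ∈ spots (p + 2) s k (.inr (.inl (x, y))) then 1 else 0) =
        if (c : ℕ) < 2 then 0 else k := by
      have h2 : ∀ x : Fin (p + 2 - 2), (∑ y : Fin k, if c ∈ spots (p + 2) s k (.inr (.inl (x, y))) then 1 else 0) =
          if (c : ℕ) = x + 2 then k else 0 := by
        intro x
        by_cases h : (c : ℕ) = x + 2 <;> simp [spots, h]
      rw [sum_congr rfl fun x _ => h2 x]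
      split_ifs with h4
      · refine sum_eq_zero fun x _ => ?_
        rw [if_neg (by omega)]
      · have hc := c.2
        have h5 : ∀ x : Fin (p + 2 - 2), (if (c : ℕ) = x + 2 then k else 0) = if x = ⟨c - 2, by omega⟩ then k else 0 := by
          intro x
          by_cases h : (c : ℕ) = x + 2
          · rw [if_pos h, if_pos]
            rw [Fin.ext_iff]
            show (x : ℕ) = c - 2
            omega
          · rw [if_neg h, if_neg]
            rw [Fin.ext_iff]
            show ¬ (x : ℕ) = c - 2
            omega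
        rw [sum_congr rfl fun x _ => h5 x, sum_ite_eq' univ]
        simp
    have h6 : (∑ x : Fin k, if c ∈ spots (p + 2) s k (.inr (.inr x)) then 1 else 0) = if (c : ℕ) < 2 then k else 0 := by
      have hm : ∀ x : Fin k, c ∈ spots (p + 2) s k (.inr (.inr x)) ↔ (c : ℕ) < 2 := fun x => by
        unfold spots
        rw [mem_filter]
        exact ⟨fun h => h.2, fun h => ⟨mem_univ c, h⟩⟩
      by_cases h : (c : ℕ) < 2
      · rw [sum_congr rfl fun x _ => if_pos ((hm x).mpr h), if_pos h]
        simp
      · rw [sum_congr rfl fun x _ => if_neg (fun h' => h ((hm x).mp h')), if_neg h]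
        simp
    rw [h1, h3, h6]
    split_ifs <;> omega
  · rw [card_filter, Fintype.sum_sum_type, Fintype.sum_sum_type]
    have h1 : (∑ x : Fin (p + 2) × Fin s, if spots (p + 2) s k (.inl x) = H30T.low p then 1 else 0) = 0 := by
      refine sum_eq_zero fun x _ => if_neg fun h => ?_
      have h2 := H30T.low_card' p
      rw [← h] at h2
      simp [spots] at h2
    have h3 : (∑ x : Fin (p + 2 - 2) × Fin k, if spots (p + 2) s k (.inr (.inl x)) = H30T.low p then 1 else 0) = 0 := by
      refine sum_eq_zero fun x _ => if_neg fun h => ?_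
      have h2 : (⟨0, by omega⟩ : Fin (p + 2)) ∈ H30T.low p := by simp [H30T.low]
      rw [← h] at h2
      simp [spots] at h2
    have h4 : (∑ x : Fin k, if spots (p + 2) s k (.inr (.inr x)) = H30T.low p then 1 else 0) = k := by
      have h5 : ∀ x : Fin k, (if spots (p + 2) s k (.inr (.inr x)) = H30T.low p then 1 else 0) = 1 := fun x => if_pos rfl
      rw [sum_congr rfl fun x _ => h5 x]
      simp
    rw [h1, h3, h4]
    omega

/-- The number of proper `q`-colourings does not change under isomorphisms. -/
theorem card_iso {V V' : Type} {G : SimpleGraph V} {G' : SimpleGraph V'} (f : G ≃g G') (q : ℕ) :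
    Nat.card (G.Coloring (Fin q)) = Nat.card (G'.Coloring (Fin q)) := by
  refine Nat.card_congr ⟨fun C => C.comp f.symm.toHom, fun C => C.comp f.toHom, fun C => ?_, fun C => ?_⟩
  · ext x
    simp
  · ext x
    simp

/-- The extremal graphs at the corners. -/
theorem result (q s k : ℕ) (hq : 2 ≤ q) (hs : 1 ≤ s) (G : SimpleGraph (Fin (q * s + (q - 1) * k)))
    (hG : G.edgeSet.ncard = q.choose 2 * s ^ 2 + q * (q - 2) * s * k + (q - 1).choose 2 * k ^ 2) :
    Nat.card (G.Coloring (Fin q)) ≤ q.factorial * 2 ^ k ∧
      (Nat.card (G.Coloring (Fin q)) = q.factorial * 2 ^ k ↔ Nonempty (G ≃g E q s k)) := by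
  classical
  obtain ⟨p, rfl⟩ := Nat.exists_eq_add_of_le' hq
  have hp1 : p + 2 - 1 = p + 1 := by omega
  have hp2 : p + 2 - 2 = p := by omega
  have hcard : #G.edgeFinset = G.edgeSet.ncard := by
    rw [← SimpleGraph.coe_edgeFinset, Set.ncard_coe_finset]
  have hH : (p + 2).choose 2 * s ^ 2 + (p + 2) * (p + 2 - 2) * s * k + (p + 2 - 1).choose 2 * k ^ 2 =
      H30T.H (p + 2) k ((p + 1) * k + (p + 2) * s) := by
    have h1 := H30T.H_closed (q := p + 2) (by omega) k ((p + 2) * s)
    rw [hp1, hp2, H30T.tn_mul (by omega)] at h1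
    rw [h1, hp1, hp2]
    ring
  have hn : (p + 2) * s + (p + 2 - 1) * k = (p + 1) * k + (p + 2) * s := by
    rw [hp1, Nat.add_comm]
  have hV : Fintype.card (Fin ((p + 2) * s + (p + 2 - 1) * k)) = (p + 1) * k + (p + 2) * s := by
    rw [Fintype.card_fin, hn]
  have hE : #G.edgeFinset = H30T.H (p + 2) k ((p + 1) * k + (p + 2) * s) := by
    rw [hcard, hG, hH]
  have hpos : 1 ≤ (p + 2) * s := Nat.le_trans hs (Nat.le_mul_of_pos_left s (by omega))
  -- the upper bound
  have hup : Nat.card (G.Coloring (Fin (p + 2))) ≤ (p + 2).factorial * 2 ^ k := by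
    by_contra hlt
    rw [not_le] at hlt
    have h1 : (p + 2).factorial * 2 ^ (k + 1) < 2 * Nat.card (G.Coloring (Fin (p + 2))) := by
      rw [pow_succ]
      have h2 : (p + 2).factorial * (2 ^ k * 2) = 2 * ((p + 2).factorial * 2 ^ k) := by ring
      rw [h2]
      exact Nat.mul_lt_mul_of_pos_left hlt (by norm_num)
    have h2 := H30T.upper hq (k + 1) _ _ G hV h1
    rw [hE] at h2
    have h3 := H30T.H_lt (p := p) (k := k) (n := (p + 1) * k + (p + 2) * s) (by
      have : (p + 2) * 1 ≤ (p + 2) * s := Nat.mul_le_mul_left _ hs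
      omega)
    omega
  -- the model
  have hlow : (p + 2).factorial * 2 ^ k ≤ Nat.card ((E (p + 2) s k).Coloring (Fin (p + 2))) := by
    have hν : p + 2 ≤ (p + 2) * s := Nat.le_mul_of_pos_right _ hs
    obtain ⟨Q', hQ'⟩ := H30T.corner_types (G := H30T.lowG p ((p + 2) * s) k) hs (by
      rw [Fintype.card_sum, Fintype.card_prod, Fintype.card_fin, Fintype.card_fin, Fintype.card_fin, Nat.add_comm]) (by
      rw [H30T.low_card]
      have h1 := H30T.H_closed (q := p + 2) (by omega) k ((p + 2) * s)
      rw [hp1, hp2] at h1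
      exact h1.symm) (H30T.low_count p _ k hν)
    obtain ⟨f⟩ := hQ'.iso (E_types p s k)
    rw [← card_iso f]
    exact H30T.low_count p _ k hν
  refine ⟨hup, ?_, ?_⟩
  · intro h
    obtain ⟨Q, hQ⟩ := H30T.corner_types hs hV hE h.ge
    exact hQ.iso (E_types p s k)
  · rintro ⟨f⟩
    refine le_antisymm hup ?_
    rw [card_iso f]
    exact hlow

end Pool.Agent.Results.MP_e806f7_co.TopRangeUnique
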