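import Pool.Agent.Lib.H95L.Fin
import Pool.Agent.Lib.H5.CP.Turan

/-!
# Wilf and Linial problem: Turan graphs are extremal for `q ≥ 100 n` and for `n ≤ 3 r`

For all `n`, `r ≥ 1` and all `q` with `q ≥ 100 n` or `n ≤ 3 r` the Turan graph `T_r(n)` has the greatest
number of proper `q`-colourings among the graphs with `n` vertices and `e(T_r(n))` edges, and it is the
only one if `q ≥ 100 n` or `q ≥ r`. For `q ≥ 100 n` there is a real `x ≥ 1` such that
`P(G; q) x ^ e(G)` has its maximum over all graphs `G` with `n` vertices, with any number of edges,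
exactly at the graphs isomorphic to `T_r(n)`.
-/

namespace Pool.Agent.Results.MP_e806f7_co.TuranLinear

open SimpleGraph

theorem result (n r q : ℕ) (hr : 0 < r) :
    (∀ G : SimpleGraph (Fin n), G.edgeSet.ncard = (turanGraph n r).edgeSet.ncard →
      (100 * n ≤ q ∨ n ≤ 3 * r →
        Nat.card (G.Coloring (Fin q)) ≤ Nat.card ((turanGraph n r).Coloring (Fin q))) ∧
      (100 * n ≤ q ∨ n ≤ 3 * r ∧ r ≤ q →
        Nat.card (G.Coloring (Fin q)) = Nat.card ((turanGraph n r).Coloring (Fin q)) →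
          Nonempty (G ≃g turanGraph n r))) ∧
    (100 * n ≤ q → ∃ x : ℝ, 1 ≤ x ∧ ∀ G : SimpleGraph (Fin n),
      (Nat.card (G.Coloring (Fin q)) : ℝ) * x ^ G.edgeSet.ncard ≤
        (Nat.card ((turanGraph n r).Coloring (Fin q)) : ℝ) * x ^ (turanGraph n r).edgeSet.ncard ∧
      ((Nat.card (G.Coloring (Fin q)) : ℝ) * x ^ G.edgeSet.ncard =
        (Nat.card ((turanGraph n r).Coloring (Fin q)) : ℝ) * x ^ (turanGraph n r).edgeSet.ncard →
        Nonempty (G ≃g turanGraph n r))) := by
  have key : 100 * n ≤ q → ∀ G : SimpleGraph (Fin n),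
      G.edgeSet.ncard = (turanGraph n r).edgeSet.ncard →
      Nat.card (G.Coloring (Fin q)) ≤ Nat.card ((turanGraph n r).Coloring (Fin q)) ∧
      (Nat.card (G.Coloring (Fin q)) = Nat.card ((turanGraph n r).Coloring (Fin q)) →
        Nonempty (G ≃g turanGraph n r)) := by
    intro hq G hG
    obtain ⟨x, hx, h⟩ := H95L.main (n := n) (r := r) (q := q) hr hq
    have hx0 : 0 < x := by linarith
    obtain ⟨h1, h2⟩ := h G
    unfold H95L.wt H95L.Pq at h1 h2
    rw [hG] at h1 h2
    have hp : 0 < x ^ (turanGraph n r).edgeSet.ncard := pow_pos hx0 _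
    refine ⟨?_, fun he => h2 (by rw [he])⟩
    exact_mod_cast le_of_mul_le_mul_right h1 hp
  refine ⟨fun G hG => ⟨?_, ?_⟩, fun hq => ?_⟩
  · rintro (h | h)
    · exact (key h G hG).1
    · exact H5CP.turan_max h G hG q
  · rintro (h | h) he
    · exact (key h G hG).2 he
    · exact H5CP.turan_unique h.1 G hG h.2 he
  · obtain ⟨x, hx, h⟩ := H95L.main (n := n) (r := r) (q := q) hr hq
    exact ⟨x, hx, h⟩

end Pool.Agent.Results.MP_e806f7_co.TuranLinear
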